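import Pool.Agent.Lib.MP_776403_ag.SD.H.Main

/-!
# Lines through a point, dimension of the family (step E) for one line and a number `a`

`S_LineE`: if `l = span (x, v0)` is a line in `X` with `deg N_X|_l ≤ a`, then there is a prime cone
`P` of lines through `x`, `v0 ∈ zer P`, of dimension at least `N + 1 - a`, stable under
translations by multiples of `x`.
-/

set_option autoImplicit false

open MvPolynomial

noncomputable section

namespace Pool.Agent.Lib.MP_776403_ag.SD.H

/-- `deg N_X|_l ≤ a`, `l = span (x, v)`. -/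
def DegLe {N : ℕ} (I : Ideal (Sx N)) (c a : ℕ) (x v : Vx N) : Prop :=
  ∀ᶠ m : ℕ in Filter.atTop,
    c * (m + 1) ≤ Module.finrank ℂ (Lam I (lineI x v) 1 m) + a

/-- Version of `SD.S_Col` for one line. -/
def S_ColE : Prop :=
  ∀ (N c a : ℕ) (I : Ideal (Sx N)) (x v0 : Vx N), IsLine I x v0 → DegLe I c a x v0 →
    ∀ L : Loc I x c, (∀ e : Fin c → Polynomial ℂ, (fun b => lin x v0 L.dt * e b) ∈ L.E v0) ∧
      Module.Finite ℂ ((Fin c → Polynomial ℂ) ⧸ L.E v0) ∧
      Module.finrank ℂ ((Fin c → Polynomial ℂ) ⧸ L.E v0) + c ≤ a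

/-- Version of `SD.S_E0` for one line. -/
def S_E0E : Prop :=
  ∀ (N c a : ℕ) (I : Ideal (Sx N)), I.IsPrime → ∀ x v0 : Vx N, IsLine I x v0 →
    DegLe I c a x v0 → ∀ L : Loc I x c, L.good v0 → ∃ b : Fin a → Ak N 0, (∀ i, b i ∈ J1 I x 0) ∧
      J1 I x 0 ≤ Ideal.span (Set.range b) ⊔ ptI (ptA 0 v0 0) * J1 I x 0

/-- Version of `SD.S_Line` for one line. -/
def S_LineE : Prop :=
  ∀ (N c a : ℕ) (I : Ideal (Sx N)), I.IsPrime → IsHom I → Smooth I c → ∀ x v0 : Vx N,
    IsLine I x v0 → DegLe I c a x v0 →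
    ∃ P : Ideal (Sx N), P.IsPrime ∧ IsHom P ∧ I ≤ P ∧ DimGe P (N + 1 - a) ∧ v0 ∈ zer P ∧
      (∀ z ∈ zer P, ∀ s : ℂ, z + s • x ∈ zer P) ∧
      ∀ z ∈ zer P, ∀ s t : ℂ, s • x + t • z ∈ zer I

open H.ColAux in
/-- Version of `H.eCol` for one line, with a number `a`. -/
theorem eColE : S_CrL → S_LineI → S_ColE := by
  intro hCrL hLineI N c a I x v0 hl hnum L
  classical
  obtain ⟨hD0, -, hCr, -⟩ := hCrL N c I x v0 x 0 L (by rw [zero_smul, add_zero]) hl.2
  obtain ⟨hJp, hJh, hJ1, -, hJd⟩ := hLineI N x v0 hl.1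
  set J := lineI x v0 with hJ
  set D := lin x v0 L.dt with hD
  have hIJ : I ≤ J := fun F hF s t => hl.2 s t F hF
  set E' : Submodule ℂ (Fin c → Polynomial ℂ) := (L.E v0).restrictScalars ℂ with hE'
  set q : (Fin c → Polynomial ℂ) →ₗ[ℂ] ((Fin c → Polynomial ℂ) ⧸ L.E v0) :=
    (L.E v0).mkQ.restrictScalars ℂ with hq
  have hq0 : ∀ e, q e = 0 ↔ e ∈ L.E v0 := fun e => Submodule.Quotient.mk_eq_zero (L.E v0)
  have hsurj : ∀ m, D.natDegree ≤ m → (Vm c m).map q = ⊤ := by
    intro m hm
    rw [eq_top_iff]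
    rintro y -
    obtain ⟨e, rfl⟩ := Submodule.Quotient.mk_surjective _ y
    refine ⟨fun b => e b % D, mem_Vm.2 fun b => ?_, ?_⟩
    · rw [Polynomial.mem_degreeLT]
      refine lt_of_lt_of_le (EuclideanDomain.mod_lt (e b) hD0) ?_
      rw [Polynomial.degree_eq_natDegree hD0]
      exact_mod_cast hm
    · change Submodule.Quotient.mk (fun b => e b % D) = Submodule.Quotient.mk e
      rw [Submodule.Quotient.eq]
      have h1 : (fun b => e b % D) - e = fun b => D * (-(e b / D)) := by
        funext b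
        have := EuclideanDomain.div_add_mod (e b) D
        rw [Pi.sub_apply]
        linear_combination this
      rw [h1]
      exact D_mul_mem L v0 _
  have hfin : Module.Finite ℂ ((Fin c → Polynomial ℂ) ⧸ L.E v0) := by
    have h1 : Module.Finite ℂ ((Vm c D.natDegree).map q) := inferInstance
    rw [hsurj _ le_rfl] at h1
    exact Module.Finite.equiv Submodule.topEquiv
  refine ⟨D_mul_mem L v0, hfin, ?_⟩
  obtain ⟨m, hm1, hm2⟩ := (hnum.and (Filter.eventually_ge_atTop
    (D.natDegree + a + 1))).exists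
  have hrk := rank_null q (Vm c m) (Vm c m ⊓ E') inf_le_left
    (fun w hw hw0 => ⟨hw, (hq0 w).1 hw0⟩) (fun w hw => (hq0 w).2 hw.2)
  rw [hsurj m (by omega), finrank_top, finrank_Vm] at hrk
  -- properties of the elements of `Lam`
  have hLam : ∀ z ∈ Lam I J 1 m, (∀ α, z α ∈ gr J (m - 1)) ∧
      (∀ α, D * linQ x v0 (z α) =
        ∑ b, lin x v0 (L.coef b (α 0)) * linQ x v0 (z fun _ => L.B b)) ∧
      phi L v0 z ∈ Vm c m ⊓ E' := by
    intro z hz
    unfold Lam at hz
    induction hz using Submodule.span_induction with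
    | mem z hz =>
      obtain ⟨A, e, F, f, ha, hF, hm, rfl⟩ := hz
      rw [Fin.sum_univ_one] at hm
      have hdet : ∀ α : Fin 1 → Fin (N + 1),
          Matrix.det (Matrix.of fun i k => pderiv (α k) (F i)) = pderiv (α 0) (F 0) := by
        intro α
        rw [Matrix.det_fin_one]
        rfl
      have hhom : ∀ j, (A * pderiv j (F 0)).IsHomogeneous (m - 1) := by
        intro j
        rcases Nat.eq_zero_or_pos (f 0) with h0 | h0
        · have h1 : F 0 = C (coeff 0 (F 0)) := by
            rw [← totalDegree_eq_zero_iff_eq_C]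
            have := (hF 0).2.totalDegree_le
            rw [h0] at this
            exact Nat.le_zero.mp this
          rw [h1, pderiv_C, mul_zero]
          exact isHomogeneous_zero _ _ _
        · have h1 := ha.mul ((hF 0).2.pderiv (i := j))
          have h2 : e + (f 0 - 1) = m - 1 := by omega
          rwa [h2] at h1
      simp only [hdet]
      refine ⟨fun α => ⟨A * pderiv (α 0) (F 0), hhom _, rfl⟩, fun α => ?_, ?_, ?_⟩
      · rw [linQ_mk, map_mul, mul_left_comm, hCr (F 0) (hF 0).1 (α 0), Finset.mul_sum]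
        refine Finset.sum_congr rfl fun b _ => ?_
        rw [linQ_mk, map_mul]
        ring
      · refine mem_Vm.2 fun b => ?_
        rw [phi_apply, linQ_mk]
        have h1 := lin_mem (hhom (L.B b)) x v0
        rwa [Nat.sub_add_cancel (by omega)] at h1
      · have h1 : phi L v0 (fun α => Ideal.Quotient.mk (lineI x v0) (A * pderiv (α 0) (F 0))) =
            lin x v0 A • (fun b => lin x v0 (pderiv (L.B b) (F 0))) := by
          funext b
          rw [phi_apply, linQ_mk, map_mul]
          rfl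
        change phi L v0 _ ∈ L.E v0
        rw [h1]
        exact Submodule.smul_mem _ _ (Submodule.subset_span ⟨F 0, (hF 0).1, rfl⟩)
    | zero =>
      refine ⟨fun α => Submodule.zero_mem _, fun α => ?_, ?_⟩
      · simp
      · rw [map_zero]; exact Submodule.zero_mem _
    | add z z' _ _ hz hz' =>
      refine ⟨fun α => Submodule.add_mem _ (hz.1 α) (hz'.1 α), fun α => ?_, ?_⟩
      · simp only [Pi.add_apply, map_add, mul_add, Finset.sum_add_distrib, hz.2.1 α, hz'.2.1 α]
      · rw [map_add]; exact Submodule.add_mem _ hz.2.2 hz'.2.2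
    | smul r z _ hz =>
      refine ⟨fun α => Submodule.smul_mem _ r (hz.1 α), fun α => ?_, ?_⟩
      · simp only [Pi.smul_apply, map_smul, mul_smul_comm, hz.2.1 α, Finset.smul_sum]
      · rw [map_smul]; exact Submodule.smul_mem _ r hz.2.2
  have hinj : Module.finrank ℂ (Lam I J 1 m) ≤ Module.finrank ℂ ↥(Vm c m ⊓ E') := by
    refine LinearMap.finrank_le_finrank_of_injective
      (f := ((phi L v0).domRestrict (Lam I J 1 m)).codRestrict (Vm c m ⊓ E')
        fun z => (hLam z.1 z.2).2.2) ?_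
    rw [← LinearMap.ker_eq_bot, LinearMap.ker_eq_bot']
    rintro ⟨z, hz⟩ h0
    have h1 : phi L v0 z = 0 := congrArg Subtype.val h0
    refine Subtype.ext ?_
    funext α
    obtain ⟨G, hG, hG2⟩ := (hLam z hz).1 α
    have h2 := (hLam z hz).2.1 α
    have h3 : ∀ b, linQ x v0 (z fun _ => L.B b) = 0 := fun b => congrFun h1 b
    simp only [h3, mul_zero, Finset.sum_const_zero] at h2
    have h4 := (mul_eq_zero.mp h2).resolve_left hD0
    rw [← hG2] at h4
    have h5 : G ∈ J := (hJ1 (m - 1) G hG).2 h4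
    change z α = 0
    rw [← hG2]
    exact Ideal.Quotient.eq_zero_iff_mem.2 h5
  have hm1' : c * (m + 1) ≤ Module.finrank ℂ (Lam I J 1 m) + a := hm1
  have h6 : c * (m + 1) = c * m + c := by ring
  omega

open H.E0Aux in
/-- Version of `H.eE0`. -/
theorem eE0E : S_Dua → S_ColE → S_FinB → S_Psi1 → S_E0E := by
  intro hDua hCol hFinB hPsi N c a I hP x v0 hl hnum L hg
  obtain ⟨hD1, hD2, hD3⟩ := hCol N c a I x v0 hl hnum L
  obtain ⟨p, hp⟩ := hPsi N c I hP x v0 hl L hg 0 (ptA 0 v0 0) (fun _ => rfl)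
    (J1 I x 0) le_rfl
  obtain ⟨hU1, hU2⟩ := hDua (Fin c) (lin x v0 L.dt) (L.E v0) 1 (lin_dt_ne L v0) hD1 hD2
  refine hFinB _ (ptA 0 v0 0) (J1 I x 0) _ a p ?_ ?_
  · rw [Fintype.card_fin, mul_one] at hU2
    lia
  · intro lam h0
    refine vanish _ _ lam.1 lam.2 ?_
    rintro f ⟨F, hF, n, rfl⟩
    exact hp lam h0 F hF n


/-! ## Translations along `x` -/

/-- `F(v + s x)` as a polynomial in `s`. -/
def shP {N : ℕ} (x : Vx N) : Sx N →ₐ[ℂ] Polynomial (Sx N) :=
  aeval fun i => Polynomial.C (X i) + Polynomial.C (C (x i)) * Polynomial.X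

theorem shP_eval {N : ℕ} (x z : Vx N) (s : ℂ) (F : Sx N) :
    ((shP x F).map (eval z)).eval s = eval (z + s • x) F := by
  induction F using MvPolynomial.induction_on with
  | C a =>
    have h1 : shP x (C a : Sx N) = Polynomial.C (C a) := by
      rw [shP, ← MvPolynomial.algebraMap_eq, AlgHom.commutes]
      rfl
    rw [h1, Polynomial.map_C, eval_C, Polynomial.eval_C, eval_C]
  | add p q hp hq => rw [map_add, Polynomial.map_add, Polynomial.eval_add, hp, hq, map_add]
  | mul_X p i hp =>
    rw [map_mul, Polynomial.map_mul, Polynomial.eval_mul, hp, map_mul, eval_X]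
    have h1 : shP x (X i : Sx N) = Polynomial.C (X i) + Polynomial.C (C (x i)) * Polynomial.X := by
      rw [shP, aeval_X]
    rw [h1]
    simp only [Polynomial.map_add, Polynomial.map_mul, Polynomial.map_C, Polynomial.map_X, eval_X,
      eval_C, Polynomial.eval_add, Polynomial.eval_mul, Polynomial.eval_C, Polynomial.eval_X,
      Pi.add_apply, Pi.smul_apply, smul_eq_mul]
    ring

/-- The ideal of the translates of the cone of `P` along `x`. -/
def joinI {N : ℕ} (P : Ideal (Sx N)) (x : Vx N) : Ideal (Sx N) :=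
  RingHom.ker ((Polynomial.mapRingHom (Ideal.Quotient.mk P)).comp (shP x).toRingHom)

theorem joinI_prime {N : ℕ} {P : Ideal (Sx N)} (hP : P.IsPrime) (x : Vx N) :
    (joinI P x).IsPrime := by
  have := RingHom.ker_isPrime ((Polynomial.mapRingHom (Ideal.Quotient.mk P)).comp
    (shP x).toRingHom)
  exact this

theorem mem_joinI {N : ℕ} {P : Ideal (Sx N)} (hP : P.IsPrime) (hh : IsHom P) (x : Vx N)
    (F : Sx N) : F ∈ joinI P x ↔ ∀ z ∈ zer P, ∀ s : ℂ, eval (z + s • x) F = 0 := by
  have h0 : F ∈ joinI P x ↔ (shP x F).map (Ideal.Quotient.mk P) = 0 := Iff.rfl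
  rw [h0]
  constructor
  · intro h z hz s
    have h1 : (shP x F).map (eval z) = 0 := by
      ext n
      have h2 := congrArg (fun q => q.coeff n) h
      simp only [Polynomial.coeff_map, Polynomial.coeff_zero] at h2
      rw [Polynomial.coeff_map, Polynomial.coeff_zero]
      exact hz _ (Ideal.Quotient.eq_zero_iff_mem.1 h2)
    rw [← shP_eval, h1, Polynomial.eval_zero]
  · intro h
    ext n
    rw [Polynomial.coeff_map, Polynomial.coeff_zero]
    refine Ideal.Quotient.eq_zero_iff_mem.2 ((tNull N P hP hh).1 _ fun z hz => ?_)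
    have h1 : (shP x F).map (eval z) = 0 := by
      refine poly_ext fun s => ?_
      rw [shP_eval, h z hz s, Polynomial.eval_zero]
    have h2 := congrArg (fun q => q.coeff n) h1
    simp only [Polynomial.coeff_map, Polynomial.coeff_zero] at h2
    exact h2

theorem smul_zer {N : ℕ} {P : Ideal (Sx N)} (hh : IsHom P) {z : Vx N} (hz : z ∈ zer P) (a : ℂ) :
    a • z ∈ zer P := by
  intro F hF
  rw [← MvPolynomial.sum_homogeneousComponent F, map_sum]
  refine Finset.sum_eq_zero fun m _ => ?_
  rw [eval_smul_form (homogeneousComponent_isHomogeneous m F), hz _ (hh F hF m), mul_zero]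

theorem joinI_hom {N : ℕ} {P : Ideal (Sx N)} (hP : P.IsPrime) (hh : IsHom P) (x : Vx N) :
    IsHom (joinI P x) := by
  intro F hF m
  rw [mem_joinI hP hh] at hF ⊢
  intro z hz s
  -- the polynomial `∑ F_m(z + s x) T^m` vanishes at all `T`
  have h1 : ∑ i ∈ Finset.range (F.totalDegree + 1),
      Polynomial.C (eval (z + s • x) (homogeneousComponent i F)) * Polynomial.X ^ i = 0 := by
    refine poly_ext fun a => ?_
    have h2 := hF (a • z) (smul_zer hh hz a) (a * s)
    have h3 : a • z + (a * s) • x = a • (z + s • x) := by module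
    rw [h3, ← MvPolynomial.sum_homogeneousComponent F, map_sum] at h2
    rw [Polynomial.eval_finsetSum, Polynomial.eval_zero, ← h2]
    refine Finset.sum_congr rfl fun i _ => ?_
    rw [eval_smul_form (homogeneousComponent_isHomogeneous i F), Polynomial.eval_mul,
      Polynomial.eval_C, Polynomial.eval_pow, Polynomial.eval_X, mul_comm]
  have h4 := congrArg (fun q => q.coeff m) h1
  simp only [Polynomial.finsetSum_coeff, Polynomial.coeff_C_mul, Polynomial.coeff_X_pow,
    Polynomial.coeff_zero] at h4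
  by_cases hm : m < F.totalDegree + 1
  · rw [Finset.sum_eq_single m (fun i _ hi => by rw [if_neg (Ne.symm hi), mul_zero])
      (fun h => absurd (Finset.mem_range.2 hm) h), if_pos rfl, mul_one] at h4
    exact h4
  · rw [homogeneousComponent_eq_zero m F (by omega), map_zero]

theorem joinI_le {N : ℕ} {P : Ideal (Sx N)} (hP : P.IsPrime) (hh : IsHom P) (x : Vx N) :
    joinI P x ≤ P := by
  intro F hF
  rw [mem_joinI hP hh] at hF
  refine (tNull N P hP hh).1 _ fun z hz => ?_
  have := hF z hz 0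
  rwa [zero_smul, add_zero] at this

/-- `F(s x + t v)`. -/
def affP {N : ℕ} (x : Vx N) (s t : ℂ) : Sx N →ₐ[ℂ] Sx N :=
  aeval fun i => C (s * x i) + C t * X i

theorem eval_affP {N : ℕ} (x : Vx N) (s t : ℂ) (w : Vx N) (F : Sx N) :
    eval w (affP x s t F) = eval (s • x + t • w) F := by
  induction F using MvPolynomial.induction_on with
  | C a => rw [affP, ← MvPolynomial.algebraMap_eq, AlgHom.commutes, algebraMap_eq, eval_C, eval_C]
  | add p q hp hq => rw [map_add, map_add, hp, hq, map_add]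
  | mul_X p i hp =>
    rw [map_mul, map_mul, hp, map_mul, eval_X]
    have h1 : affP x s t (X i : Sx N) = C (s * x i) + C t * X i := by
      rw [affP, aeval_X]
    rw [h1]
    simp only [map_add, map_mul, eval_X, eval_C, Pi.add_apply, Pi.smul_apply, smul_eq_mul]

theorem dimGe_mono {N : ℕ} {P' P : Ideal (Sx N)} (h : P' ≤ P) {D : ℕ} (hD : DimGe P D) :
    DimGe P' D := by
  obtain ⟨i, hi⟩ := hD
  refine ⟨i, AlgebraicIndependent.of_comp (Ideal.Quotient.factorₐ ℂ h) ?_⟩
  exact hi

open H.LineOfAux in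
theorem eLineE : S_Loc → S_Good → S_E0E → S_WH → S_PtE → S_Krull → S_Frac → S_P0 → S_LineE := by
  intro hLoc hGood hE0 hWH hPt hKrull hFrac hP0 N c a I hIp hIh hIs x v0 hl hdg
  obtain ⟨L⟩ := hLoc N c I hIs x (mem_x hl) (ne_x hl)
  obtain ⟨μ, hμ⟩ := hGood N c I x v0 L
  have hl1 := LineOfAux.shift hl μ
  have hdg1 : DegLe I c a x (v0 + μ • x) := by
    have e : lineI x (v0 + μ • x) = lineI x v0 := by
      ext F
      constructor
      · intro hF s t
        have h1 := hF (s - t * μ) t
        have h2 : (s - t * μ) • x + t • (v0 + μ • x) = s • x + t • v0 := by module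
        rwa [h2] at h1
      · intro hF s t
        have h1 := hF (s + t * μ) t
        have h2 : (s + t * μ) • x + t • v0 = s • x + t • (v0 + μ • x) := by module
        rwa [h2] at h1
    unfold DegLe
    rw [e]
    exact hdg
  obtain ⟨b, hb, hle⟩ := hE0 N c a I hIp x (v0 + μ • x) hl1 hdg1 L hμ
  have hpt := hPt N I hIh x (v0 + μ • x) 0 hl1 0 (Submodule.zero_mem _)
  obtain ⟨P, hPp, hJP, hPz, hPw, y, hy⟩ := hKrull (Fin (N + 1) ⊕ (Fin (N + 1) × Fin 0)) (wt N 0)
    (J1 I x 0) (ptA 0 (v0 + μ • x) 0) a b (hWH N I x 0 0).1 hpt.2.2.2.1 hb hle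
  have hdim := hFrac N (Fin (N + 1) × Fin 0) P _ y hPp hy (fun s => s.2.elim0)
  have hc : Fintype.card (Fin (N + 1) ⊕ (Fin (N + 1) × Fin 0)) - a = N + 1 - a := by simp
  rw [hc] at hdim
  obtain ⟨h1, h2, h3, h4⟩ := hP0 N I hIh x 0 P hPp hPw hJP
  have hv : v0 + μ • x ∈ zer (P0 P) := by
    intro F hF
    have k1 : rename Sum.inl F ∈ P := hF
    have k2 : eval (ptA 0 (v0 + μ • x) 0) (rename (Sum.inl : Fin (N + 1) → Fin (N + 1) ⊕
      (Fin (N + 1) × Fin 0)) F) = 0 := hPz k1
    rw [eval_rename] at k2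
    exact k2
  have hz : ∀ z, z ∈ zer (joinI (P0 P) x) → ∀ s : ℂ, z + s • x ∈ zer (joinI (P0 P) x) := by
    intro z hz s
    have key : ∀ F ∈ joinI (P0 P) x, (shP x F).map (eval z) = 0 := by
      intro F hF
      ext n
      rw [Polynomial.coeff_map, Polynomial.coeff_zero]
      refine hz _ ?_
      rw [mem_joinI h1 h2] at hF ⊢
      intro w hw t
      -- `F(w + t x + s x) = 0` for all `s`
      have k1 : (shP x F).map (eval (w + t • x)) = 0 := by
        refine poly_ext fun r => ?_
        rw [shP_eval, Polynomial.eval_zero]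
        have k2 := hF w hw (t + r)
        rwa [add_smul, ← add_assoc] at k2
      have k3 := congrArg (fun q => q.coeff n) k1
      simp only [Polynomial.coeff_map, Polynomial.coeff_zero] at k3
      exact k3
    intro F hF
    rw [← shP_eval, key F hF, Polynomial.eval_zero]
  refine ⟨joinI (P0 P) x, joinI_prime h1 x, joinI_hom h1 h2 x, ?_, dimGe_mono (joinI_le h1 h2 x)
    hdim, ?_, hz, ?_⟩
  · intro F hF
    rw [mem_joinI h1 h2]
    intro z hz s
    have k1 := h4 z hz s 1
    rw [one_smul, add_comm] at k1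
    exact k1 F hF
  · have k1 : v0 + μ • x ∈ zer (joinI (P0 P) x) := fun F hF => by
      rw [mem_joinI h1 h2] at hF
      have := hF _ hv 0
      rwa [zero_smul, add_zero] at this
    have k2 := hz _ k1 (-μ)
    have k3 : v0 + μ • x + -μ • x = v0 := by module
    rwa [k3] at k2
  · intro z hzz s t F hF
    -- the coefficients of `F(s x + t z)` are in `joinI`
    have k1 : ∀ G : Sx N, (∀ w, eval w G = eval (s • x + t • w) F) → G ∈ joinI (P0 P) x := by
      intro G hG
      rw [mem_joinI h1 h2]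
      intro w hw r
      rw [hG]
      have k2 := h4 w hw (s + t * r) t
      have k3 : (s + t * r) • x + t • w = s • x + t • (w + r • x) := by module
      rw [k3] at k2
      exact k2 F hF
    have k4 := hzz _ (k1 (affP x s t F) fun w => eval_affP x s t w F)
    rwa [eval_affP] at k4

theorem mLineE : S_LineE :=
  eLineE mLoc mGood (eE0E (eDua ePhi) (eColE mCrL (eLineI eLinB)) eFinB mPsi1) mWH mPtE mKrull
    mFrac mP0

end Pool.Agent.Lib.MP_776403_ag.SD.H
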